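import Pool.Agent.Helper37.CiGeneral
import Pool.Agent.Helper40.CS.Defs

/-!
# A potential in every direction (direct proof by double localisation)

`κ` is a regular power-multiplicative cost, `c ≥ 2`.  `kc = loc κ c` satisfies `kc m ≤ m ^ (-s)` for
all `m`, with equality for all `m` prime to a prime `q` (`exists_prime`).  If `c = q ^ b * c'` with
`q ∤ c'`, then `k' = loc kc c'` is completely multiplicative: `k' m = m ^ (-s) * (q ^ v_q(m)) ^ (-t)`.
-/

set_option autoImplicit false

open MvPolynomial Pool.Agent.Helper37.Ci Pool.Agent.Helper37.Ci.RegCost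

namespace Pool.Agent.Helper70.CI

universe u

variable {κ : ℕ → ℝ}

/-- The localisation of a power-multiplicative cost is power-multiplicative. -/
theorem loc_powm (h : RegCost κ) (hpw : ∀ m k, 1 ≤ m → κ (m ^ k) = κ m ^ k) {e : ℕ} (he : 1 ≤ e)
    (hpos : 0 < κ e) (m k : ℕ) (hm : 1 ≤ m) : loc κ e (m ^ k) = loc κ e m ^ k := by
  rcases Nat.eq_zero_or_pos k with hk | hk
  · subst hk
    rw [pow_zero, pow_zero]
    exact RegCost.loc_one hpos (fun t => hpw e t he)
  · have h1 := (h.loc_tendsto he hpos hm).pow k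
    have h2 := (h.loc_tendsto he hpos (Nat.one_le_pow k m hm)).comp
      (Filter.tendsto_id.atTop_mul_const' (f := fun t : ℕ => t) (r := k) hk)
    refine tendsto_nhds_unique h2 (h1.congr (fun t => ?_))
    simp only [Function.comp_apply]
    rw [div_pow, ← hpw _ _ (Nat.mul_pos (Nat.one_le_pow _ _ he) hm), mul_pow, ← pow_mul, ← pow_mul]

/-- The exact upper bound of a power-multiplicative cost. -/
theorem upper_exact (hpw : ∀ m k, 1 ≤ m → κ (m ^ k) = κ m ^ k) {s : ℝ}
    (hs : ∀ t : ℝ, t < s → t ∈ RegCost.bset κ) {m : ℕ} (hm : 1 ≤ m) :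
    κ m * (m : ℝ) ^ s ≤ 1 := by
  have hmR : (0 : ℝ) < m := by exact_mod_cast hm
  have key : ∀ t : ℝ, t < s → κ m * (m : ℝ) ^ t ≤ 1 := by
    intro t ht
    obtain ⟨C, hC⟩ := hs t ht
    by_contra hcon
    push Not at hcon
    obtain ⟨k, hk⟩ := pow_unbounded_of_one_lt C hcon
    have h1 := hC (m ^ k) (Nat.one_le_pow _ _ hm)
    rw [hpw m k hm] at h1
    have h2 : ((m ^ k : ℕ) : ℝ) ^ t = ((m : ℝ) ^ t) ^ k := by
      push_cast
      rw [← Real.rpow_natCast, ← Real.rpow_mul hmR.le, mul_comm, Real.rpow_mul hmR.le,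
        Real.rpow_natCast]
    rw [h2, ← mul_pow] at h1
    linarith
  have hlim : Filter.Tendsto (fun t : ℝ => κ m * (m : ℝ) ^ t) (nhdsWithin s (Set.Iio s))
      (nhds (κ m * (m : ℝ) ^ s)) := by
    have hcont : Continuous (fun t : ℝ => κ m * (m : ℝ) ^ t) :=
      continuous_const.mul (Real.continuous_const_rpow hmR.ne')
    exact (hcont.tendsto s).mono_left nhdsWithin_le_nhds
  exact le_of_tendsto hlim (Filter.eventually_of_mem self_mem_nhdsWithin (fun t ht => key t ht))

/-- From a completely multiplicative positive function satisfying the system inequality. -/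
theorem conclude_mult {r n : ℕ} {d : Fin r → ℕ} (hd : ∀ j, 0 < d j) (hs : SysIneq n d κ)
    (S : Submonoid ℕ) (hdS : ∀ j, d j ∈ S) (hpos : ∀ m ∈ S, 0 < κ m)
    (hmul : ∀ a ∈ S, ∀ b ∈ S, κ (a * b) = κ a * κ b) :
    (n : ℝ) ≤ ∑ j, (κ (d j))⁻¹ := by
  classical
  set P := ∏ j, d j with hP
  have hPS : P ∈ S := Submonoid.prod_mem S (fun j _ => hdS j)
  have hP1 : 1 ≤ P := Nat.succ_le_of_lt (Finset.prod_pos (fun j _ => hd j))
  have hdm : ∀ j, d j * ∏ k ∈ Finset.univ.erase j, d k = P := fun j =>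
    Finset.mul_prod_erase Finset.univ d (Finset.mem_univ j)
  have hES : ∀ j, ∏ k ∈ Finset.univ.erase j, d k ∈ S := fun j =>
    Submonoid.prod_mem S (fun k _ => hdS k)
  have h1 := hs P (fun j => ∏ k ∈ Finset.univ.erase j, d k)
    (fun j => Nat.succ_le_of_lt (Finset.prod_pos (fun k _ => hd k))) hdm hP1
  have hκP := hpos P hPS
  have h2 : ∀ j, κ (∏ k ∈ Finset.univ.erase j, d k) = (κ (d j))⁻¹ * κ P := by
    intro j
    have h3 := hmul _ (hdS j) _ (hES j)
    rw [hdm j] at h3
    rw [h3, inv_mul_cancel_left₀ (hpos _ (hdS j)).ne']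
  simp only [h2] at h1
  rw [← Finset.sum_mul] at h1
  exact le_of_mul_le_mul_right h1 hκP

/-- A potential in the direction `c`. -/
theorem dir {i : ℕ} (h : RegCost.Full i κ) {c : ℕ} (hc : 2 ≤ c) :
    ∃ (q : ℕ) (s : ℝ), q.Prime ∧ 0 ≤ s ∧ s ≤ i ∧
      (∀ (r n : ℕ) (d : Fin r → ℕ), (∀ j, 0 < d j) → (∀ j, ¬ q ∣ d j) → SysIneq n d κ →
        (n : ℝ) ≤ ∑ j, (d j : ℝ) ^ s) ∧
      (q ∣ c → ∃ t : ℝ, 0 ≤ t ∧
        (∀ (r n : ℕ) (d : Fin r → ℕ), (∀ j, 0 < d j) → SysIneq n d κ →
          (n : ℝ) ≤ ∑ j, (d j : ℝ) ^ s * ((q : ℝ) ^ (padicValNat q (d j))) ^ t) ∧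
        s * Real.log c + t * padicValNat q c * Real.log q ≤ i * Real.log c) := by
  have hc1 : 1 ≤ c := by omega
  have hκc := h.pos hc1
  have hR := h.toRegCost
  obtain ⟨h1, h2, h3, h4⟩ := h.loc_data hc
  obtain ⟨-, hτ0, hτi⟩ := h.tau_spec hc
  set kc := loc κ c with hkc
  have hbdd : BddAbove (RegCost.bset kc) := ⟨RegCost.tau κ c, h4⟩
  obtain ⟨q, hq, hqlow⟩ := h1.exists_prime h2 hbdd
  set s := sSup (RegCost.bset kc) with hs
  have hsτ : s ≤ RegCost.tau κ c := csSup_le ⟨0, h1.zero_mem_bset⟩ h4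
  have hs0 : 0 ≤ s := le_csSup hbdd h1.zero_mem_bset
  have hpw : ∀ m k, 1 ≤ m → kc (m ^ k) = kc m ^ k := fun m k hm =>
    loc_powm hR h.powm hc1 hκc m k hm
  have hup : ∀ m, 1 ≤ m → kc m * (m : ℝ) ^ s ≤ 1 := fun m hm =>
    upper_exact hpw (fun t ht => h1.mem_bset_of_lt ht) hm
  have hqco : ∀ m, ¬ q ∣ m → Nat.Coprime m q := fun m hm =>
    ((Nat.Prime.coprime_iff_not_dvd hq).mpr hm).symm
  have hval : ∀ m, 1 ≤ m → ¬ q ∣ m → kc m = ((m : ℝ) ^ s)⁻¹ := by
    intro m hm hqm
    have hmR : (0 : ℝ) < m := by exact_mod_cast hm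
    exact eq_inv_of_mul_eq_one_left (le_antisymm (hup m hm) (hqlow m hm (hqco m hqm)))
  refine ⟨q, s, hq, hs0, hsτ.trans hτi, ?_, ?_⟩
  · intro r n d hd hqd hsys
    have h5 := conclude_mult hd (hR.loc_system hc1 hκc hsys) (RegCost.coprimeMonoid q)
      (fun j => ⟨hd j, hqco _ (hqd j)⟩)
      (fun m hm => by
        have hmR : (0 : ℝ) < m := by exact_mod_cast hm.1
        have hqm : ¬ q ∣ m := (Nat.Prime.coprime_iff_not_dvd hq).mp hm.2.symm
        rw [← hkc, hval m hm.1 hqm]; positivity)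
      (fun a ha b hb => by
        have hqa : ¬ q ∣ a := (Nat.Prime.coprime_iff_not_dvd hq).mp ha.2.symm
        have hqb : ¬ q ∣ b := (Nat.Prime.coprime_iff_not_dvd hq).mp hb.2.symm
        have hqab : ¬ q ∣ a * b := fun hab => ((Nat.Prime.dvd_mul hq).mp hab).elim hqa hqb
        rw [← hkc, hval a ha.1 hqa, hval b hb.1 hqb, hval _ (Nat.mul_pos ha.1 hb.1) hqab,
          Nat.cast_mul, Real.mul_rpow (by positivity) (by positivity), mul_inv])
    refine h5.trans (le_of_eq (Finset.sum_congr rfl (fun j _ => ?_)))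
    rw [← hkc, hval _ (hd j) (hqd j), inv_inv]
  · intro hqc
    obtain ⟨b, c', hqc', hcb⟩ := Nat.exists_eq_pow_mul_and_not_dvd (by omega : c ≠ 0) q hq.ne_one
    have hb : 1 ≤ b := by
      rcases Nat.eq_zero_or_pos b with h0 | h0
      · rw [h0, pow_zero, one_mul] at hcb
        exact absurd (hcb ▸ hqc) hqc'
      · exact h0
    have hc'1 : 1 ≤ c' := by
      rcases Nat.eq_zero_or_pos c' with h0 | h0
      · rw [h0] at hqc'; simp at hqc'
      · exact h0
    have hq1 : 1 ≤ q := hq.one_lt.le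
    have hqR : (1 : ℝ) < q := by exact_mod_cast hq.one_lt
    have hq0 : (0 : ℝ) < q := by linarith
    have hlogq : 0 < Real.log q := Real.log_pos hqR
    have hvc' := hval c' hc'1 hqc'
    have hc'R : (0 : ℝ) < c' := by exact_mod_cast hc'1
    have hpc' : 0 < kc c' := by rw [hvc']; positivity
    set k' := loc kc c' with hk'
    have g1 : RegCost k' := h1.loc_regCost hc'1 hpc'
    have gpw : ∀ m k, 1 ≤ m → k' (m ^ k) = k' m ^ k := fun m k hm =>
      loc_powm h1 hpw hc'1 hpc' m k hm
    have g0 : k' 1 = 1 := RegCost.loc_one hpc' (fun t => hpw c' t hc'1)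
    have gbase : ∀ m, 1 ≤ m → k' (c' * m) = kc c' * k' m := fun m hm =>
      h1.loc_base hc'1 hpc' hm
    have gc : ∀ m, 1 ≤ m → k' (c * m) = κ c * k' m := by
      intro m hm
      have e1 := h1.loc_tendsto hc'1 hpc' (Nat.mul_pos hc1 hm)
      have e2 := (h1.loc_tendsto hc'1 hpc' hm).const_mul (κ c)
      refine tendsto_nhds_unique e1 (e2.congr (fun t => ?_))
      have e3 : c' ^ t * (c * m) = c * (c' ^ t * m) := by ring
      rw [e3, hkc, hR.loc_base hc1 hκc (Nat.mul_pos (Nat.one_le_pow _ _ hc'1) hm)]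
      ring
    have gle : ∀ m, 1 ≤ m → k' m ≤ kc m := fun m hm => h1.loc_le hc'1 hpc' hm
    -- the values at the numbers prime to `q`
    have gval : ∀ m, 1 ≤ m → ¬ q ∣ m → k' m = ((m : ℝ) ^ s)⁻¹ := by
      intro m hm hqm
      have hmR : (0 : ℝ) < m := by exact_mod_cast hm
      apply le_antisymm
      · rw [← hval m hm hqm]; exact gle m hm
      · have e1 := h1.loc_tendsto hc'1 hpc' hm
        refine ge_of_tendsto' e1 (fun t => ?_)
        have hqt : ¬ q ∣ c' ^ t * m := fun hab =>
          ((Nat.Prime.dvd_mul hq).mp hab).elim (fun hh => hqc' (hq.dvd_of_dvd_pow hh)) hqm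
        rw [hval _ (Nat.mul_pos (Nat.one_le_pow _ _ hc'1) hm) hqt, hvc']
        push_cast
        rw [Real.mul_rpow (by positivity) (by positivity), mul_inv, inv_pow,
          ← Real.rpow_natCast, ← Real.rpow_natCast, ← Real.rpow_mul hc'R.le,
          ← Real.rpow_mul hc'R.le, mul_comm (t : ℝ) s]
        have : (0 : ℝ) < (c' : ℝ) ^ (s * t) := by positivity
        rw [mul_comm, mul_div_assoc, div_self (by positivity), mul_one]
    -- the value at `q`
    have hqb1 : 1 ≤ q ^ b := Nat.one_le_pow _ _ hq1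
    have grho : ∀ m, 1 ≤ m → k' (q ^ b * m) = (κ c * (c' : ℝ) ^ s) * k' m := by
      intro m hm
      have e1 := gc m hm
      have e2 := gbase (q ^ b * m) (Nat.mul_pos hqb1 hm)
      have e3 : c * m = c' * (q ^ b * m) := by rw [hcb]; ring
      rw [e3, e2, hvc'] at e1
      have e4 : (0 : ℝ) < (c' : ℝ) ^ s := by positivity
      field_simp at e1
      linarith
    have hlamb : k' q ^ b = κ c * (c' : ℝ) ^ s := by
      have e1 := grho 1 le_rfl
      rw [mul_one, g0, mul_one, gpw q b hq1] at e1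
      exact e1
    have hρ0 : 0 < κ c * (c' : ℝ) ^ s := by positivity
    have hlam0 : 0 < k' q := by
      rcases (g1.nonneg q hq1).eq_or_lt with e | e
      · rw [← e, zero_pow (by omega)] at hlamb
        linarith
      · exact e
    have gq : ∀ m, 1 ≤ m → k' (q * m) = k' q * k' m := by
      intro m hm
      apply le_antisymm (g1.mul q m hq1 hm)
      obtain ⟨b', rfl⟩ : ∃ b', b = b' + 1 := ⟨b - 1, by omega⟩
      have e1 := grho m hm
      have e2 := g1.mul (q ^ b') (q * m) (Nat.one_le_pow _ _ hq1) (Nat.mul_pos hq1 hm)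
      have e3 : q ^ b' * (q * m) = q ^ (b' + 1) * m := by ring
      rw [e3, e1, ← hlamb, gpw q b' hq1, pow_succ] at e2
      have e4 : 0 < k' q ^ b' := by positivity
      refine le_of_mul_le_mul_left ?_ e4
      linarith
    have gqv : ∀ v m, 1 ≤ m → k' (q ^ v * m) = k' q ^ v * k' m := by
      intro v
      induction v with
      | zero => intro m _; simp
      | succ v ih =>
        intro m hm
        have e3 : q ^ (v + 1) * m = q * (q ^ v * m) := by ring
        rw [e3, gq _ (Nat.mul_pos (Nat.one_le_pow _ _ hq1) hm), ih m hm]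
        ring
    -- the parameter `t`
    set t := - Real.log (k' q) / Real.log q - s with ht
    have hkq : k' q = (q : ℝ) ^ (-(s + t)) := by
      rw [Real.rpow_def_of_pos hq0, ht]
      have : Real.log q * -(s + (-Real.log (k' q) / Real.log q - s)) = Real.log (k' q) := by
        field_simp
        ring
      rw [this, Real.exp_log hlam0]
    have ht0 : 0 ≤ t := by
      have e1 := (mul_le_mul_of_nonneg_right (gle q hq1)
        (by positivity : (0 : ℝ) ≤ (q : ℝ) ^ s)).trans (hup q hq1)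
      rw [hkq, ← Real.rpow_add hq0] at e1
      by_contra hcon
      push Not at hcon
      have e2 : 1 < (q : ℝ) ^ (-(s + t) + s) := Real.one_lt_rpow hqR (by linarith)
      linarith
    have : Fact q.Prime := ⟨hq⟩
    have gform : ∀ m, 1 ≤ m →
        k' m = ((m : ℝ) ^ s * ((q : ℝ) ^ (padicValNat q m)) ^ t)⁻¹ := by
      intro m hm
      obtain ⟨v, w, hw, hmw⟩ := Nat.exists_eq_pow_mul_and_not_dvd (by omega : m ≠ 0) q hq.ne_one
      have hw1 : 1 ≤ w := by
        rcases Nat.eq_zero_or_pos w with h0 | h0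
        · rw [h0] at hw; simp at hw
        · exact h0
      have hwR : (0 : ℝ) < w := by exact_mod_cast hw1
      have hv : padicValNat q m = v := by
        rw [hmw, padicValNat.mul (by positivity) (by omega),
          padicValNat.prime_pow, padicValNat.eq_zero_of_not_dvd hw, add_zero]
      rw [hv, hmw, gqv v w hw1, gval w hw1 hw, hkq]
      push_cast
      rw [Real.mul_rpow (by positivity) hwR.le, ← Real.rpow_natCast, ← Real.rpow_natCast,
        ← Real.rpow_mul hq0.le, ← Real.rpow_mul hq0.le, ← Real.rpow_mul hq0.le,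
        mul_right_comm, ← Real.rpow_add hq0, mul_inv, ← Real.rpow_neg hq0.le]
      congr 2
      ring
    have gpos : ∀ m, 1 ≤ m → 0 < k' m := by
      intro m hm
      have hmR : (0 : ℝ) < m := by exact_mod_cast hm
      rw [gform m hm]
      positivity
    refine ⟨t, ht0, ?_, ?_⟩
    · intro r n d hd hsys
      have h5 := conclude_mult hd (h1.loc_system hc'1 hpc' (hR.loc_system hc1 hκc hsys))
        RegCost.posMonoid (fun j => hd j) (fun m hm => gpos m hm)
        (fun a ha b hb => by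
          have ha1 : 1 ≤ a := ha
          have hb1 : 1 ≤ b := hb
          rw [← hk', gform a ha1, gform b hb1, gform _ (Nat.mul_pos ha1 hb1),
            padicValNat.mul (by omega) (by omega), pow_add, Nat.cast_mul,
            Real.mul_rpow (by positivity) (by positivity),
            Real.mul_rpow (by positivity) (by positivity), ← mul_inv]
          congr 1
          ring)
      refine h5.trans (le_of_eq (Finset.sum_congr rfl (fun j _ => ?_)))
      rw [← hk', gform _ (hd j), inv_inv]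
    · have e1 := gc 1 le_rfl
      rw [mul_one, g0, mul_one, gform c hc1] at e1
      have hcR : (0 : ℝ) < c := by exact_mod_cast hc1
      have e2 := h.lb c hc1
      rw [← e1, inv_mul_eq_div, one_le_div (by positivity)] at e2
      have e3 := Real.log_le_log (by positivity) e2
      rw [Real.log_mul (by positivity) (by positivity), Real.log_rpow hcR, Real.log_pow,
        Real.log_rpow (by positivity), Real.log_pow] at e3
      linarith

/-- A potential of the field in the direction `c`. -/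
theorem exists_pot {K : Type u} [Field K] {i : ℕ} (hac : ¬ IsAlgClosed K) (hK : CiS K i) {c : ℕ}
    (hc : 2 ≤ c) :
    ∃ (p : ℕ) (s : ℝ), p.Prime ∧ 0 ≤ s ∧ s ≤ i ∧ Pool.Agent.Helper40.CS.PotInf K p s ∧
      (p ∣ c → ∃ t : ℝ, 0 ≤ t ∧ Pool.Agent.Helper40.CS.Pot K p s t ∧
        s * Real.log c + t * padicValNat p c * Real.log p ≤ i * Real.log c) := by
  obtain ⟨q, s, hq, hs0, hsi, H1, H2⟩ := dir (full_reg hac hK) hc
  refine ⟨q, s, hq, hs0, hsi, ?_, ?_⟩
  · intro n r d f hd hqd hf hf0
    rcases Nat.eq_zero_or_pos n with hn | hn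
    · rw [hn, Nat.cast_zero]
      exact Finset.sum_nonneg (fun j _ => by positivity)
    · exact H1 r n d hd hqd (sysIneq_reg hac hK f hf hf0 hn)
  · intro hqc
    obtain ⟨t, ht0, H3, H4⟩ := H2 hqc
    refine ⟨t, ht0, ?_, H4⟩
    intro n r d f hd hf hf0
    rcases Nat.eq_zero_or_pos n with hn | hn
    · rw [hn, Nat.cast_zero]
      exact Finset.sum_nonneg (fun j _ => by positivity)
    · exact H3 r n d hd (sysIneq_reg hac hK f hf hf0 hn)

end Pool.Agent.Helper70.CI
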